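import Pool.Agent.Y382.PAR.Stm

/-!
# Parities of complete mappings: normal subgroups of order five
-/

set_option autoImplicit false

namespace Pool.Agent.Y970.PAR

open Pool.Agent.Y382.PAR

universe u

variable {G : Type u} [Group G] [Finite G]

lemma pow5 {N : Subgroup G} (hN : Nat.card N = 5) {n : G} (h : n ∈ N) : n ^ 5 = 1 := by
  have h1 := pow_card_eq_one' (x := (⟨n, h⟩ : N))
  rw [hN] at h1
  exact congrArg Subtype.val h1

lemma sq_inj {N : Subgroup G} (hN : Nat.card N = 5) {n m : G} (hn : n ∈ N) (hm : m ∈ N)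
    (h : n ^ 2 = m ^ 2) : n = m := by
  have h1 : ∀ k ∈ N, k = (k ^ 2) ^ 3 := fun k hk => by
    rw [← pow_mul, show 2 * 3 = 5 + 1 from rfl, pow_succ, pow5 hN hk, one_mul]
  rw [h1 n hn, h1 m hm, h]

def dbl : Equiv.Perm (ZMod 5) :=
  ⟨fun x => 2 * x, fun x => 3 * x, by intro x; revert x; decide, by intro x; revert x; decide⟩

lemma sign_dbl : Equiv.Perm.sign dbl = -1 := by decide

noncomputable def sq (N : Subgroup G) (hN : Nat.card N = 5) : Equiv.Perm N :=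
  Equiv.ofBijective (fun n => n ^ 2) (Finite.injective_iff_bijective.mp fun n m h =>
    Subtype.ext (sq_inj hN n.2 m.2 (congrArg Subtype.val h)))

lemma sgn_sq (N : Subgroup G) (hN : Nat.card N = 5) : sgn (sq N hN) = -1 := by
  classical
  have := Fintype.ofFinite N
  have : Fact (Nat.Prime 5) := ⟨by norm_num⟩
  let e : N ≃* Multiplicative (ZMod 5) := mulEquivOfPrimeCardEq (p := 5) hN (by simp)
  let e' : N ≃ ZMod 5 := e.toEquiv.trans Multiplicative.toAdd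
  have h : e'.permCongr (sq N hN) = dbl := by
    refine Equiv.ext fun x => ?_
    have h1 : sq N hN (e'.symm x) = (e'.symm x) ^ 2 := rfl
    rw [Equiv.permCongr_apply, h1]
    have h2 : e' ((e'.symm x) ^ 2) = 2 * e' (e'.symm x) := by
      change Multiplicative.toAdd (e ((e'.symm x) ^ 2)) = 2 * Multiplicative.toAdd (e (e'.symm x))
      rw [map_pow, toAdd_pow, two_mul, two_nsmul]
    rw [h2, Equiv.apply_symm_apply]
    rfl
  rw [sgn_eq, ← Equiv.Perm.sign_permCongr e', h, sign_dbl]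

open Classical in
/-- squaring on the coset `N x` -/
noncomputable def pw (N : Subgroup G) (hN : Nat.card N = 5) (x : G) : Equiv.Perm G :=
  (Equiv.mulRight x) * (Equiv.Perm.ofSubtype (sq N hN)) * (Equiv.mulRight x)⁻¹

lemma sgn_pw (N : Subgroup G) (hN : Nat.card N = 5) (x : G) : sgn (pw N hN x) = -1 := by
  classical
  have := Fintype.ofFinite G
  unfold pw
  rw [sgn_mul, sgn_mul, sgn_inv, mul_comm (sgn (Equiv.mulRight x)), mul_assoc, Int.units_mul_self,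
    mul_one, sgn_eq, Equiv.Perm.sign_ofSubtype, ← sgn_eq, sgn_sq]

lemma pw_mem (N : Subgroup G) (hN : Nat.card N = 5) (x : G) {n : G} (h : n ∈ N) :
    pw N hN x (n * x) = n ^ 2 * x := by
  classical
  unfold pw
  rw [Equiv.Perm.mul_apply, Equiv.Perm.mul_apply]
  have h1 : (Equiv.mulRight x)⁻¹ (n * x) = n := by
    rw [Equiv.Perm.inv_eq_iff_eq]
    rfl
  rw [h1, Equiv.Perm.ofSubtype_apply_of_mem _ h]
  rfl

lemma pw_not (N : Subgroup G) (hN : Nat.card N = 5) (x : G) {g : G} (h : g * x⁻¹ ∉ N) :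
    pw N hN x g = g := by
  classical
  unfold pw
  rw [Equiv.Perm.mul_apply, Equiv.Perm.mul_apply]
  have h1 : (Equiv.mulRight x)⁻¹ g = g * x⁻¹ := by
    rw [Equiv.Perm.inv_eq_iff_eq]
    simp
  rw [h1, Equiv.Perm.ofSubtype_apply_of_not_mem _ h]
  simp

lemma pw_pow_mem (N : Subgroup G) (hN : Nat.card N = 5) (x : G) (a : ℕ) :
    ∀ n ∈ N, (pw N hN x ^ a) (n * x) = n ^ (2 ^ a) * x := by
  induction a with
  | zero => intro n _; simp
  | succ a ih =>
    intro n hn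
    rw [pow_succ, Equiv.Perm.mul_apply, pw_mem N hN x hn, ih _ (pow_mem hn 2), ← pow_mul, pow_succ,
      Nat.mul_comm]

lemma pw_pow_not (N : Subgroup G) (hN : Nat.card N = 5) (x : G) (a : ℕ) {g : G}
    (h : g * x⁻¹ ∉ N) : (pw N hN x ^ a) g = g :=
  Equiv.Perm.pow_apply_eq_self_of_apply_eq_self (pw_not N hN x h) a

/-- the admissible pairs of exponents -/
def Adm (a b : ℕ) : Prop := (a = 0 ∧ b = 0) ∨ (a = 1 ∧ b = 2) ∨ (a = 3 ∧ b = 1)

lemma adm_pow {N : Subgroup G} (hN : Nat.card N = 5) {a b : ℕ} (h : Adm a b) {n : G} (hn : n ∈ N) :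
    n * n ^ (2 ^ a) = (n ^ (2 ^ b)) * (n ^ (2 ^ b)) := by
  have h5 := pow5 hN hn
  rcases h with ⟨rfl, rfl⟩ | ⟨rfl, rfl⟩ | ⟨rfl, rfl⟩
  · simp
  · rw [← pow_succ', ← pow_add]
    norm_num
    rw [show (8 : ℕ) = 5 + 3 from rfl, pow_add, h5, one_mul]
  · rw [← pow_succ', ← pow_add]
    norm_num
    rw [show (9 : ℕ) = 5 + 4 from rfl, pow_add, h5, one_mul]

lemma adm_signs (ε δ : ℤˣ) : ∃ a b a' b' : ℕ, Adm a b ∧ Adm a' b' ∧
    (-1 : ℤˣ) ^ a * (-1) ^ a' = ε ∧ (-1 : ℤˣ) ^ b * (-1) ^ b' = δ := by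
  rcases Int.units_eq_one_or ε with rfl | rfl <;> rcases Int.units_eq_one_or δ with rfl | rfl
  · exact ⟨0, 0, 0, 0, Or.inl ⟨rfl, rfl⟩, Or.inl ⟨rfl, rfl⟩, by decide, by decide⟩
  · exact ⟨1, 2, 3, 1, Or.inr (Or.inl ⟨rfl, rfl⟩), Or.inr (Or.inr ⟨rfl, rfl⟩), by decide, by decide⟩
  · exact ⟨1, 2, 0, 0, Or.inr (Or.inl ⟨rfl, rfl⟩), Or.inl ⟨rfl, rfl⟩, by decide, by decide⟩
  · exact ⟨3, 1, 0, 0, Or.inr (Or.inr ⟨rfl, rfl⟩), Or.inl ⟨rfl, rfl⟩, by decide, by decide⟩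

/-- one step: change on the coset `N x` -/
lemma step {N : Subgroup G} (hN : Nat.card N = 5) (f F : Equiv.Perm G) (hF : ∀ g, F g = g * f g)
    (x y : G) (hs : ∀ n ∈ N, f (n * x) = x⁻¹ * n * x * y) {a b : ℕ} (hab : Adm a b) (g : G) :
    (F * pw N hN x ^ b) g = g * (f * pw N hN x ^ a) g := by
  rw [Equiv.Perm.mul_apply, Equiv.Perm.mul_apply]
  by_cases h : g * x⁻¹ ∈ N
  · obtain ⟨n, hn, rfl⟩ : ∃ n ∈ N, g = n * x := ⟨_, h, by group⟩
    rw [pw_pow_mem N hN x b n hn, pw_pow_mem N hN x a n hn, hF, hs _ (pow_mem hn _),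
      hs _ (pow_mem hn _)]
    have h1 := adm_pow hN hab hn
    calc n ^ 2 ^ b * x * (x⁻¹ * n ^ 2 ^ b * x * y) = (n ^ 2 ^ b * n ^ 2 ^ b) * x * y := by group
      _ = (n * n ^ 2 ^ a) * x * y := by rw [h1]
      _ = n * x * (x⁻¹ * n ^ 2 ^ a * x * y) := by group
  · rw [pw_pow_not N hN x b h, pw_pow_not N hN x a h, hF]

theorem t_FIV : S_FIV.{u} := by
  intro G _ _ N _ hN hNt ⟨η, θ, hθ⟩ ε δ
  let s : G ⧸ N → G := fun q => q.out
  have hs : ∀ q, ((s q : G) : G ⧸ N) = q := fun q => QuotientGroup.out_eq' q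
  have hf : Function.Injective (fun g : G => (s g)⁻¹ * g * s (η g)) := by
    intro g g' h
    have h1 := congrArg (fun z : G => (z : G ⧸ N)) h
    simp only [QuotientGroup.mk_mul, QuotientGroup.mk_inv, hs, inv_mul_cancel, one_mul] at h1
    have h2 := η.injective h1
    simp only [h2] at h
    exact mul_left_cancel (mul_right_cancel h)
  have hF : Function.Injective (fun g : G => g * ((s g)⁻¹ * g * s (η g))) := by
    intro g g' h
    have h1 := congrArg (fun z : G => (z : G ⧸ N)) h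
    simp only [QuotientGroup.mk_mul, QuotientGroup.mk_inv, hs, inv_mul_cancel, one_mul] at h1
    rw [← hθ, ← hθ] at h1
    have h2 := θ.injective h1
    have hm : ∀ k : G, k * (s k)⁻¹ ∈ N := fun k => by
      rw [← QuotientGroup.eq_one_iff, QuotientGroup.mk_mul, QuotientGroup.mk_inv, hs, mul_inv_cancel]
    have hg := hm g
    have hg' := hm g'
    rw [← h2] at hg'
    simp only [← h2] at h
    have h3 : (g * (s g)⁻¹) ^ 2 = (g' * (s g)⁻¹) ^ 2 := by
      have h4 : g * ((s g)⁻¹ * g * s (η g)) * (s (η g))⁻¹ * (s g)⁻¹ =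
        g' * ((s g)⁻¹ * g' * s (η g)) * (s (η g))⁻¹ * (s g)⁻¹ := by rw [h]
      calc (g * (s g)⁻¹) ^ 2 = g * ((s g)⁻¹ * g * s (η g)) * (s (η g))⁻¹ * (s g)⁻¹ := by
            rw [pow_two]; group
        _ = _ := h4
        _ = (g' * (s g)⁻¹) ^ 2 := by rw [pow_two]; group
    exact mul_right_cancel (sq_inj hN hg hg' h3)
  let f₁ : Equiv.Perm G := Equiv.ofBijective _ (Finite.injective_iff_bijective.mp hf)
  let F₁ : Equiv.Perm G := Equiv.ofBijective _ (Finite.injective_iff_bijective.mp hF)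
  have hf₁ : ∀ g, f₁ g = (s g)⁻¹ * g * s (η g) := fun _ => rfl
  have hF₁ : ∀ g, F₁ g = g * f₁ g := fun _ => rfl
  have hstd : ∀ q : G ⧸ N, ∀ n ∈ N, f₁ (n * s q) = (s q)⁻¹ * n * s q * s (η q) := by
    intro q n hn
    have h1 : ((n * s q : G) : G ⧸ N) = q := by
      rw [QuotientGroup.mk_mul, hs, (QuotientGroup.eq_one_iff n).mpr hn, one_mul]
    rw [hf₁, h1]
    group
  obtain ⟨c, hc⟩ : ∃ c : G, c ∉ N := by
    by_contra h
    push Not at h
    exact hNt (eq_top_iff.mpr fun z _ => h z)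
  let x : G := s ((1 : G) : G ⧸ N)
  let x' : G := s (c : G ⧸ N)
  have hxx : ∀ n ∈ N, n * x' * x⁻¹ ∉ N := by
    intro n hn h
    rw [← QuotientGroup.eq_one_iff, QuotientGroup.mk_mul, QuotientGroup.mk_mul,
      QuotientGroup.mk_inv, (QuotientGroup.eq_one_iff n).mpr hn, hs, hs] at h
    apply hc
    rw [← QuotientGroup.eq_one_iff]
    simpa using h
  obtain ⟨a, b, a', b', h1, h2, h3, h4⟩ := adm_signs (sgn f₁ * ε) (sgn F₁ * δ)
  have hs1 := step hN f₁ F₁ hF₁ x (s (η ((1 : G) : G ⧸ N))) (hstd _) h1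
  have hs2 := step hN (f₁ * pw N hN x ^ a) (F₁ * pw N hN x ^ b) hs1 x' (s (η (c : G ⧸ N)))
    (by
      intro n hn
      rw [Equiv.Perm.mul_apply, pw_pow_not N hN x a (hxx n hn)]
      exact hstd _ n hn) h2
  have hpow : ∀ (z : G) (k : ℕ), sgn (pw N hN z ^ k) = (-1) ^ k := by
    intro z k
    induction k with
    | zero =>
      classical
      have := Fintype.ofFinite G
      rw [pow_zero, pow_zero, sgn_eq, map_one]
    | succ k ih => rw [pow_succ, sgn_mul, ih, sgn_pw, pow_succ]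
  refine ⟨_, _, hs2, ?_, ?_⟩
  · rw [sgn_mul, sgn_mul, hpow, hpow, mul_assoc, h3, ← mul_assoc, Int.units_mul_self, one_mul]
  · rw [sgn_mul, sgn_mul, hpow, hpow, mul_assoc, h4, ← mul_assoc, Int.units_mul_self, one_mul]

end Pool.Agent.Y970.PAR
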